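import Pool.Agent.Q122.Assoc.Exp

/-!
The discriminant exponents of the associated form: for all `n ≥ 2` and `d ≥ 3` and for every
exponent vector `γ` of degree `n (d - 2)` the least integer `p_γ` for which `Δ ^ p_γ * μ_γ` is a
polynomial in the coefficients of the form is `1`; in particular `p(n, d) = max p_γ = 1`.

The upper bound `p_γ ≤ 1`: over the ring `A` of polynomials in the coefficients of the generic form,
`Δ` is an inertia form of the partial derivatives, and in the degree `n (d - 2)` every inertia form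
is an `A`-multiple of the Hessian modulo the partial derivatives (library `Pool.Agent.Q80.Disc`). The
lower bound: `μ_γ` is not the zero function, since for `f = ∑ ℓ_j ^ d` with
`ℓ_j = z_j - (z_1 + ... + z_n) / (n + 1)` the variables are combinations of the `ℓ_j` with positive
coefficients and the Milnor algebra is `ℂ[ℓ] / (ℓ_j ^ (d - 1))`, and `μ_γ (t f) = t ^ (-n) μ_γ (f)`.
-/

set_option autoImplicit false

namespace Pool.Agent.Results.MP_ee1e03_al.EveryCoefficientExponent

open MvPolynomial Pool.Agent.Helper56.Disc Pool.Agent.Q122.Assoc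

/-- For all `n ≥ 2` and `d ≥ 3`: discriminants exist, the numbers `μ_γ(f)` are well defined for
nondegenerate `f`, for every discriminant `Δ` and every `γ` of degree `n (d - 2)` the least integer
`p_γ` such that `Δ ^ p_γ * μ_γ` is given by a polynomial is `1`, and the greatest of the numbers
`p_γ`, which is `p(n, d)`, is `1`. -/
theorem result : ∀ n d : ℕ, 2 ≤ n → 3 ≤ d →
    (∃ Δ : MvPolynomial (Mon n d) ℂ, IsDiscriminant Δ) ∧
    (∀ c : Mon n d → ℂ, Nondegenerate (form c) → ∀ γ : Fin n →₀ ℕ, γ.degree = n * (d - 2) →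
      ∃! μ : ℂ, IsMu (form c) γ μ) ∧
    ∀ Δ : MvPolynomial (Mon n d) ℂ, IsDiscriminant Δ →
      (∀ γ : Fin n →₀ ℕ, γ.degree = n * (d - 2) → IsLeast {p : ℤ | Extends Δ γ p} 1) ∧
      IsGreatest {q : ℤ | ∃ γ : Fin n →₀ ℕ, γ.degree = n * (d - 2) ∧
        IsLeast {p : ℤ | Extends Δ γ p} q} 1 := by
  intro n d hn hd
  have hmain : ∀ Δ : MvPolynomial (Mon n d) ℂ, IsDiscriminant Δ → ∀ γ : Fin n →₀ ℕ,
      γ.degree = n * (d - 2) → IsLeast {p : ℤ | Extends Δ γ p} 1 := fun Δ hΔ γ hγ =>
    isLeast_one (by omega) (by omega) Δ hΔ γ hγ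
  refine ⟨Pool.Agent.Q80.Disc.exists_discriminant (by omega) (by omega),
    fun c hc γ hγ => existsUnique_mu (by omega) c hc γ hγ, fun Δ hΔ => ⟨hmain Δ hΔ, ?_, ?_⟩⟩
  · have hγ : (Finsupp.single (⟨0, by omega⟩ : Fin n) (n * (d - 2))).degree = n * (d - 2) :=
      Finsupp.degree_single _ _
    exact ⟨_, hγ, hmain Δ hΔ _ hγ⟩
  · rintro q ⟨γ, hγ, hq⟩
    exact (hq.unique (hmain Δ hΔ γ hγ)).le

end Pool.Agent.Results.MP_ee1e03_al.EveryCoefficientExponent
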